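import Pool.Agent.KS6_76.COL.Near

/-!
# COLOURING is polynomial on the two classes and on all graphs near them
-/

namespace Pool.Agent.Results.MP_7b6841_lc.NearTheClasses

open Pool.Agent.Helper856.PairStmt Pool.Agent.Helper856.Cw Pool.Agent.Helper856.Lcw
  Pool.Agent.H333R2.Col
  Pool.Agent.KS6_76.COL

/-- The `(2P_1 + P_2, complement of P_1 + P_2 + P_3)`-free graphs (Q1). -/
def ClassQ1 (V : Type) (G : SimpleGraph V) : Prop :=
  ¬ F2P1_P2.IsIndContained G ∧ ¬ P1_P2_P3ᶜ.IsIndContained G

/-- The `(2P_1 + P_2, complement of P_1 + P_5)`-free graphs (Q2). -/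
def ClassQ2 (V : Type) (G : SimpleGraph V) : Prop :=
  ¬ F2P1_P2.IsIndContained G ∧ ¬ P1_P5ᶜ.IsIndContained G

theorem cw1 : ∃ c, ∀ (V : Type) [Finite V] (G : SimpleGraph V), ClassQ1 V G →
    linearCliqueWidth G ≤ c := by
  have h : Bounded F2P1_P2 P1_P2_P3ᶜ := by
    refine (Pool.Agent.Results.MP_849b2e_co.Classification.result _ _ _ _).2 ?_
    rw [diamond_compl, compl_compl, compl_compl]
    exact Or.inr (Or.inr (Or.inl (Or.inr (Or.inr (Or.inr (Or.inr (Or.inl
      ⟨SimpleGraph.IsIndContained.refl _,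
        Or.inr (Or.inr (SimpleGraph.IsIndContained.refl _))⟩)))))))
  obtain ⟨c, hc⟩ := h
  exact ⟨c, fun V _ G hG => hc V G hG.1 hG.2⟩

theorem cw2 : ∃ c, ∀ (V : Type) [Finite V] (G : SimpleGraph V), ClassQ2 V G →
    linearCliqueWidth G ≤ c := by
  have h : Bounded F2P1_P2 P1_P5ᶜ := by
    refine (Pool.Agent.Results.MP_849b2e_co.Classification.result _ _ _ _).2 ?_
    rw [diamond_compl, compl_compl, compl_compl]
    exact Or.inr (Or.inr (Or.inl (Or.inr (Or.inr (Or.inr (Or.inr (Or.inl
      ⟨SimpleGraph.IsIndContained.refl _,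
        Or.inr (Or.inl (SimpleGraph.IsIndContained.refl _))⟩)))))))
  obtain ⟨c, hc⟩ := h
  exact ⟨c, fun V _ G hG => hc V G hG.1 hG.2⟩

/-- (1) The graphs of both classes have bounded linear clique-width.
(2) For all `s` and `p`, COLOURING (graph and number of colours in the input) can be solved in
polynomial time on the graphs from which a graph of one of the two classes arises by deleting at
most `s` vertices and then flipping the adjacency between the parts of a partition into `p` parts,
for some pairs of parts.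
(3) In particular COLOURING can be solved in polynomial time on the class of Q1 and on the class
of Q2, and also on the complements of their graphs. -/
theorem result :
    (∃ c, ∀ (V : Type) [Finite V] (G : SimpleGraph V), ClassQ1 V G ∨ ClassQ2 V G →
      linearCliqueWidth G ≤ c) ∧
    (∀ s p : ℕ, ColouringInPOn (Near s p fun V G => ClassQ1 V G ∨ ClassQ2 V G)) ∧
    ColouringInPOn ClassQ1 ∧ ColouringInPOn ClassQ2 ∧
    ColouringInPOn (fun V G => ClassQ1 V Gᶜ ∨ ClassQ2 V Gᶜ) := by
  obtain ⟨c₁, h₁⟩ := cw1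
  obtain ⟨c₂, h₂⟩ := cw2
  have h : ∀ (V : Type) [Finite V] (G : SimpleGraph V), ClassQ1 V G ∨ ClassQ2 V G →
      linearCliqueWidth G ≤ max c₁ c₂ := by
    rintro V _ G (hG | hG)
    · exact (h₁ V G hG).trans (le_max_left _ _)
    · exact (h₂ V G hG).trans (le_max_right _ _)
  have h' : ∀ (V : Type) [Finite V] (G : SimpleGraph V), ClassQ1 V G ∨ ClassQ2 V G →
      cliqueWidth G ≤ max c₁ c₂ := fun V _ G hG =>
    (Pool.Agent.H221R2.CwBasic.cliqueWidth_le G).trans (h V G hG)
  exact ⟨⟨_, h⟩, fun s p => colouring_near h',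
    colouringInPOn_of_cliqueWidth fun V _ G hG => h' V G (Or.inl hG),
    colouringInPOn_of_cliqueWidth fun V _ G hG => h' V G (Or.inr hG),
    colouringInPOn_of_cliqueWidth_compl fun V _ G hG => h' V _ hG⟩

end Pool.Agent.Results.MP_7b6841_lc.NearTheClasses
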